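import Mathlib
import Pool.Agent.TH678.EL.Run

/-!
# Hidden strings are not found, although they are coded behind hidden keys
-/

set_option autoImplicit false

namespace Pool.Agent.L0h33.AV

open Pool.Agent.NPC Pool.Agent.TH678.EL Finset
open Pool.Agent.H620R2.Gauge (Oracle Alg)

section count

variable {Y I V : Type} [Fintype Y] [Fintype I] [Fintype V] [DecidableEq Y] [DecidableEq I]
  [DecidableEq V]

/-- the keys which satisfy the constraints -/
def Dk (P : Finset (I × V)) : Finset (I → V) := univ.filter fun f => ∀ p ∈ P, f p.1 = p.2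

theorem card_Dk_insert (P : Finset (I × V)) {p : I × V} (hp : p ∉ P) :
    (Dk (insert p P)).card * Fintype.card V ≤ (Dk P).card := by
  by_cases h : ∃ v, (p.1, v) ∈ P
  · obtain ⟨v, hv⟩ := h
    have h1 : Dk (insert p P) = ∅ := by
      rw [Finset.eq_empty_iff_forall_notMem]
      intro f hf
      unfold Dk at hf
      rw [Finset.mem_filter] at hf
      have h2 := hf.2 p (Finset.mem_insert_self _ _)
      have h3 := hf.2 _ (Finset.mem_insert_of_mem hv)
      apply hp
      have h4 : p = (p.1, v) := by
        rw [Prod.ext_iff]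
        exact ⟨rfl, h2.symm.trans h3⟩
      rw [h4]
      exact hv
    rw [h1]
    simp
  · have h1 : (Dk (insert p P) ×ˢ (univ : Finset V)).card ≤ (Dk P).card := by
      refine Finset.card_le_card_of_injOn (fun z => Function.update z.1 p.1 z.2) ?_ ?_
      · rintro ⟨f, v⟩ hf
        rw [Finset.mem_coe, Finset.mem_product] at hf
        obtain ⟨hf, -⟩ := hf
        unfold Dk at hf ⊢
        rw [Finset.mem_filter] at hf
        rw [Finset.mem_coe, Finset.mem_filter]
        refine ⟨Finset.mem_univ _, fun q hq => ?_⟩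
        have hne : q.1 ≠ p.1 := by
          intro h2
          exact h ⟨q.2, by rw [← h2]; exact hq⟩
        beta_reduce
        rw [Function.update_of_ne hne]
        exact hf.2 q (Finset.mem_insert_of_mem hq)
      · rintro ⟨f, v⟩ hf ⟨f', v'⟩ hf' heq
        rw [Finset.mem_coe, Finset.mem_product] at hf hf'
        obtain ⟨hf, -⟩ := hf
        obtain ⟨hf', -⟩ := hf'
        unfold Dk at hf hf'
        rw [Finset.mem_filter] at hf hf'
        have h2 : f p.1 = p.2 := hf.2 p (Finset.mem_insert_self _ _)
        have h3 : f' p.1 = p.2 := hf'.2 p (Finset.mem_insert_self _ _)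
        beta_reduce at heq
        rw [Prod.mk.injEq]
        constructor
        · funext i
          by_cases hi : i = p.1
          · rw [hi, h2, h3]
          · have h4 := congrFun heq i
            rwa [Function.update_of_ne hi, Function.update_of_ne hi] at h4
        · have h4 := congrFun heq p.1
          rwa [Function.update_self, Function.update_self] at h4
    rwa [Finset.card_product, Finset.card_univ] at h1

variable {M : Alg} {x : List Bool} {X : Y × (I → V) → Oracle} {O' : Oracle}
  {f : List Bool → Option (I × V)} {lc : Y → List Bool}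

open Classical in
theorem count_core [Nonempty V] (hlc : Function.Injective lc)
    (h0 : ∀ u θ, f u = none → X θ u = O' u)
    (h1 : ∀ u θ p, f u = some p → X θ u = true → θ.2 p.1 = p.2)
    (h2 : ∀ u u' θ p, f u = some p → f u' = some p → X θ u = X θ u') :
    ∀ (m : ℕ) (a : List Bool) (P : Finset (I × V)),
      ((univ.filter (fun θ : Y × (I → V) => (∀ p ∈ P, ∃ u, f u = some p ∧ X θ u = true) ∧
        lc θ.1 ∈ qset M (X θ) x m a)).card : ℝ) ≤
        (Dk P).card * (m * (1 + 1 / (Fintype.card V : ℝ)) ^ m) := by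
  have hV : (0 : ℝ) < Fintype.card V := by exact_mod_cast Fintype.card_pos
  set r : ℝ := 1 + 1 / (Fintype.card V : ℝ) with hr
  have hr1 : 1 ≤ r := by
    rw [hr]
    have : 0 < 1 / (Fintype.card V : ℝ) := by positivity
    linarith
  intro m
  induction m with
  | zero =>
    intro a P
    simp [qset]
  | succ m ih =>
    intro a P
    have hrm : 0 ≤ (m : ℝ) * r ^ m := by positivity
    have hstep : 1 + r * ((m : ℝ) * r ^ m) ≤ ((m + 1 : ℕ) : ℝ) * r ^ (m + 1) := by
      have h3 : 1 ≤ r ^ (m + 1) := one_le_pow₀ hr1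
      push_cast
      rw [pow_succ] at h3 ⊢
      nlinarith
    have hstep' : 1 + (m : ℝ) * r ^ m ≤ ((m + 1 : ℕ) : ℝ) * r ^ (m + 1) := by
      refine le_trans ?_ hstep
      nlinarith
    have hD : (0 : ℝ) ≤ (Dk P).card := Nat.cast_nonneg _
    by_cases hq : (M.D (pairBits x a)).head? = some false
    swap
    · have h3 : univ.filter (fun θ : Y × (I → V) =>
          (∀ p ∈ P, ∃ u, f u = some p ∧ X θ u = true) ∧ lc θ.1 ∈ qset M (X θ) x (m + 1) a) = ∅ := by
        rw [Finset.filter_eq_empty_iff]
        rintro θ - ⟨-, h⟩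
        rw [qset_succ, if_neg hq] at h
        simp at h
      rw [h3, Finset.card_empty, Nat.cast_zero]
      have : 0 ≤ ((m + 1 : ℕ) : ℝ) * r ^ (m + 1) := by positivity
      positivity
    set q := (M.D (pairBits x a)).tail with hqd
    set S : ℕ → List Bool → Finset (I × V) → Finset (Y × (I → V)) := fun m a P =>
      univ.filter (fun θ => (∀ p ∈ P, ∃ u, f u = some p ∧ X θ u = true) ∧
        lc θ.1 ∈ qset M (X θ) x m a) with hS
    set Y0 : Finset (Y × (I → V)) := univ.filter (fun θ => lc θ.1 = q ∧ θ.2 ∈ Dk P) with hY0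
    have hY0c : (Y0.card : ℝ) ≤ (Dk P).card := by
      have : Y0.card ≤ (Dk P).card := by
        refine Finset.card_le_card_of_injOn (fun θ => θ.2) ?_ ?_
        · intro θ hθ
          rw [hY0, Finset.mem_coe, Finset.mem_filter] at hθ
          exact hθ.2.2
        · intro θ hθ θ' hθ' he
          rw [hY0, Finset.mem_coe, Finset.mem_filter] at hθ hθ'
          exact Prod.ext (hlc (hθ.2.1.trans hθ'.2.1.symm)) he
      exact_mod_cast this
    have hin : ∀ θ, (∀ p ∈ P, ∃ u, f u = some p ∧ X θ u = true) → θ.2 ∈ Dk P := by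
      intro θ h
      unfold Dk
      rw [Finset.mem_filter]
      refine ⟨Finset.mem_univ _, fun p hp => ?_⟩
      obtain ⟨u, hu, hu'⟩ := h p hp
      exact h1 u θ p hu hu'
    have hmem : ∀ θ, θ ∈ S (m + 1) a P → (∀ p ∈ P, ∃ u, f u = some p ∧ X θ u = true) ∧
        (θ ∈ Y0 ∨ lc θ.1 ∈ qset M (X θ) x m (a ++ [X θ q])) := by
      intro θ hθ
      rw [hS] at hθ
      rw [Finset.mem_filter, qset_succ, if_pos hq, Finset.mem_insert] at hθ
      obtain ⟨-, h3, h4⟩ := hθ
      refine ⟨h3, ?_⟩
      rcases h4 with h4 | h4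
      · left
        rw [hY0, Finset.mem_filter]
        exact ⟨Finset.mem_univ _, h4, hin θ h3⟩
      · exact Or.inr h4
    have one : ∀ b : Bool, S (m + 1) a P ⊆ Y0 ∪ S m (a ++ [b]) P →
        ((S (m + 1) a P).card : ℝ) ≤ (Dk P).card * (((m + 1 : ℕ) : ℝ) * r ^ (m + 1)) := by
      intro b hb
      have h3 : ((S (m + 1) a P).card : ℝ) ≤ Y0.card + (S m (a ++ [b]) P).card := by
        exact_mod_cast (Finset.card_le_card hb).trans (Finset.card_union_le _ _)
      have h4 := ih (a ++ [b]) P
      have h5 : ((Dk P).card : ℝ) * (1 + (m : ℝ) * r ^ m) ≤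
          (Dk P).card * (((m + 1 : ℕ) : ℝ) * r ^ (m + 1)) := mul_le_mul_of_nonneg_left hstep' hD
      have h6 : ((S m (a ++ [b]) P).card : ℝ) ≤ (Dk P).card * (m * r ^ m) := h4
      linarith
    show ((S (m + 1) a P).card : ℝ) ≤ _
    rcases hf : f q with _ | p
    · refine one (O' q) fun θ hθ => ?_
      obtain ⟨h3, h4⟩ := hmem θ hθ
      rw [Finset.mem_union]
      rcases h4 with h4 | h4
      · exact Or.inl h4
      · right
        rw [h0 q θ hf] at h4
        rw [hS, Finset.mem_filter]
        exact ⟨Finset.mem_univ _, h3, h4⟩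
    · by_cases hp : p ∈ P
      · refine one true fun θ hθ => ?_
        obtain ⟨h3, h4⟩ := hmem θ hθ
        rw [Finset.mem_union]
        rcases h4 with h4 | h4
        · exact Or.inl h4
        · right
          obtain ⟨u, hu, hu'⟩ := h3 p hp
          rw [h2 q u θ p hf hu, hu'] at h4
          rw [hS, Finset.mem_filter]
          exact ⟨Finset.mem_univ _, h3, h4⟩
      · have hsub : S (m + 1) a P ⊆ Y0 ∪ (S m (a ++ [false]) P ∪ S m (a ++ [true]) (insert p P)) := by
          intro θ hθ
          obtain ⟨h3, h4⟩ := hmem θ hθ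
          rw [Finset.mem_union]
          rcases h4 with h4 | h4
          · exact Or.inl h4
          · right
            rw [Finset.mem_union]
            cases hX : X θ q with
            | false =>
              left
              rw [hX] at h4
              rw [hS, Finset.mem_filter]
              exact ⟨Finset.mem_univ _, h3, h4⟩
            | true =>
              right
              rw [hX] at h4
              rw [hS, Finset.mem_filter]
              refine ⟨Finset.mem_univ _, fun p' hp' => ?_, h4⟩
              rcases Finset.mem_insert.1 hp' with rfl | hp'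
              · exact ⟨q, hf, hX⟩
              · exact h3 p' hp'
        have h3 : ((S (m + 1) a P).card : ℝ) ≤ Y0.card + ((S m (a ++ [false]) P).card +
            (S m (a ++ [true]) (insert p P)).card) := by
          exact_mod_cast (Finset.card_le_card hsub).trans ((Finset.card_union_le _ _).trans
            (Nat.add_le_add_left (Finset.card_union_le _ _) _))
        have h4 : ((S m (a ++ [false]) P).card : ℝ) ≤ (Dk P).card * (m * r ^ m) :=
          ih (a ++ [false]) P
        have h5 : ((S m (a ++ [true]) (insert p P)).card : ℝ) ≤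
            (Dk (insert p P)).card * (m * r ^ m) := ih (a ++ [true]) (insert p P)
        have h6 : ((Dk (insert p P)).card : ℝ) * Fintype.card V ≤ (Dk P).card := by
          exact_mod_cast card_Dk_insert P hp
        have h7 : ((Dk (insert p P)).card : ℝ) ≤ (Dk P).card * (1 / Fintype.card V) := by
          rw [mul_one_div, le_div_iff₀ hV]
          exact h6
        have h8 : ((Dk (insert p P)).card : ℝ) * (m * r ^ m) ≤
            (Dk P).card * (1 / Fintype.card V) * (m * r ^ m) :=
          mul_le_mul_of_nonneg_right h7 hrm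
        have h9 : ((Dk P).card : ℝ) * (1 + r * ((m : ℝ) * r ^ m)) ≤
            (Dk P).card * (((m + 1 : ℕ) : ℝ) * r ^ (m + 1)) := mul_le_mul_of_nonneg_left hstep hD
        have h10 : ((Dk P).card : ℝ) * (1 + r * ((m : ℝ) * r ^ m)) = (Dk P).card +
            (Dk P).card * (m * r ^ m) + (Dk P).card * (1 / Fintype.card V) * (m * r ^ m) := by
          rw [hr]
          ring
        linarith

theorem pow_le_four {m v : ℕ} (hv : 0 < v) (h : m ≤ v) : (1 + 1 / (v : ℝ)) ^ m ≤ 4 := by
  have hv' : (0 : ℝ) < v := by exact_mod_cast hv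
  have h1 : 1 + 1 / (v : ℝ) ≤ Real.exp (1 / v) := by
    have := Real.add_one_le_exp (1 / (v : ℝ))
    linarith
  have h2 : (1 + 1 / (v : ℝ)) ^ m ≤ Real.exp (1 / v) ^ m :=
    pow_le_pow_left₀ (by positivity) h1 m
  rw [← Real.exp_nat_mul] at h2
  have h3 : (m : ℝ) * (1 / v) ≤ 1 := by
    rw [mul_one_div, div_le_one hv']
    exact_mod_cast h
  have h4 : Real.exp (m * (1 / v)) ≤ Real.exp 1 := Real.exp_le_exp.2 h3
  have h5 := Real.exp_one_lt_d9
  linarith

open Classical in
/-- **The hidden string is not found.** -/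
theorem exists_good [Nonempty V] (hlc : Function.Injective lc)
    (h0 : ∀ u θ, f u = none → X θ u = O' u)
    (h1 : ∀ u θ p, f u = some p → X θ u = true → θ.2 p.1 = p.2)
    (h2 : ∀ u u' θ p, f u = some p → f u' = some p → X θ u = X θ u')
    (m : ℕ) (xs : Finset (List Bool)) (hm : m ≤ Fintype.card V)
    (hxs : xs.card * (4 * m) < Fintype.card Y) :
    ∃ θ, ∀ x ∈ xs, lc θ.1 ∉ qset M (X θ) x m [] := by
  by_contra hcon
  push Not at hcon
  have hV : 0 < Fintype.card V := Fintype.card_pos
  set N : ℕ := Fintype.card (I → V) with hN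
  have hNpos : 0 < N := Fintype.card_pos
  have key : ∀ x : List Bool, ((univ.filter (fun θ : Y × (I → V) =>
      lc θ.1 ∈ qset M (X θ) x m [])).card : ℝ) ≤ N * (4 * m) := by
    intro x
    have h3 := count_core (M := M) (x := x) hlc h0 h1 h2 m [] ∅
    have h4 : univ.filter (fun θ : Y × (I → V) =>
        (∀ p ∈ (∅ : Finset (I × V)), ∃ u, f u = some p ∧ X θ u = true) ∧
        lc θ.1 ∈ qset M (X θ) x m []) = univ.filter (fun θ : Y × (I → V) =>
      lc θ.1 ∈ qset M (X θ) x m []) := by
      refine Finset.filter_congr fun θ _ => ?_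
      simp
    rw [h4] at h3
    have h5 : (Dk (∅ : Finset (I × V))).card = N := by
      unfold Dk
      rw [Finset.filter_true_of_mem (fun _ _ => by simp), Finset.card_univ]
    rw [h5] at h3
    refine h3.trans (mul_le_mul_of_nonneg_left ?_ (Nat.cast_nonneg _))
    have h6 := pow_le_four hV hm
    have h7 : (0 : ℝ) ≤ m := Nat.cast_nonneg _
    nlinarith
  have hall : (univ : Finset (Y × (I → V))) ⊆ xs.biUnion fun x => univ.filter
      (fun θ : Y × (I → V) => lc θ.1 ∈ qset M (X θ) x m []) := by
    intro θ _
    obtain ⟨x, hx, h⟩ := hcon θ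
    rw [Finset.mem_biUnion]
    exact ⟨x, hx, by rw [Finset.mem_filter]; exact ⟨Finset.mem_univ _, h⟩⟩
  have h3 : ((univ : Finset (Y × (I → V))).card : ℝ) ≤ xs.card * (N * (4 * m)) := by
    calc ((univ : Finset (Y × (I → V))).card : ℝ) ≤ ((xs.biUnion fun x => univ.filter
          (fun θ : Y × (I → V) => lc θ.1 ∈ qset M (X θ) x m [])).card : ℝ) := by
          exact_mod_cast Finset.card_le_card hall
      _ ≤ ∑ x ∈ xs, ((univ.filter
          (fun θ : Y × (I → V) => lc θ.1 ∈ qset M (X θ) x m [])).card : ℝ) := by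
          exact_mod_cast Finset.card_biUnion_le
      _ ≤ ∑ x ∈ xs, ((N : ℝ) * (4 * m)) := Finset.sum_le_sum fun x _ => key x
      _ = xs.card * (N * (4 * m)) := by rw [Finset.sum_const, nsmul_eq_mul]
  rw [Finset.card_univ, Fintype.card_prod, ← hN] at h3
  have h4 : (xs.card : ℝ) * (4 * m) < Fintype.card Y := by exact_mod_cast hxs
  have h5 : (0 : ℝ) < N := by exact_mod_cast hNpos
  push_cast at h3
  nlinarith

end count

end Pool.Agent.L0h33.AV
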