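import Pool.Agent.L0h33.RR.Defs

/-!
# Bounded nondeterminism with one bit of advice
-/

set_option autoImplicit false

namespace Pool.Agent.L0h33.AV

open Pool.Agent.NPC
open Pool.Agent.H620R2.Gauge (Oracle IsFP)

/-- `G[h] / 1` relative to `A`: nondeterministic polynomial time with `h (|x|)` guessed bits and
one bit of advice for every input length: a sequence `a` of bits (computable or not) is given, and
the algorithm `V` gets the bit `a (|x|)`, the input `x` and the guessed string `w`. -/
def GAdv (A : Oracle) (h : ℕ → ℕ) (L : Set (List Bool)) : Prop :=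
  ∃ (V : List Bool → List Bool) (a : ℕ → Bool), IsFP A V ∧ ∀ x : List Bool,
    x ∈ L ↔ ∃ w : Fin (h x.length) → Bool, V (a x.length :: pairBits x (List.ofFn w)) = [true]

end Pool.Agent.L0h33.AV
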