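import Pool.Agent.H620R2.Gauge.C
import Pool.Agent.H620R2.Gauge.U1
import Pool.Agent.L0h33.RR.Cls

/-!
# Coding polynomial space
-/

set_option autoImplicit false

namespace Pool.Agent.L0h33.AV

open Pool.Agent.NPC Pool.Agent.H620R2.Gauge Pool.Agent.H620R2.Gauge.CC
open Pool.Agent.L0h33.LD (Nice)
open Pool.Agent.L0h33.RR (GA ga_iff)

theorem exists_Phi : ∃ (R : ℕ → Polynomial ℕ) (Φ : List Bool → Oracle → Bool),
    (∀ e z O O', (∀ q : List Bool, q.length < (code R e z).length → O q = O' q) →
      Φ (code R e z) O = Φ (code R e z) O') ∧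
    ∀ E L, IsPSPACE E L → ∃ e, ∀ z, z ∈ L ↔ Φ (code R e z) E = true := by
  classical
  obtain ⟨g, hg⟩ := exists_enum
  choose b hb using fun e : ℕ => act_length (g e).1 (g e).2
  have key : ∀ c : List Bool, ∃ φ : Oracle → Bool, ∀ e z, c = code b e z →
      ∀ O, (φ O = true ↔ Acc (g e).1 (CC.cut ((b e).eval z.length) O) z) := by
    intro c
    by_cases h : ∃ p : ℕ × List Bool, c = code b p.1 p.2
    · obtain ⟨⟨e, z⟩, h⟩ := h
      refine ⟨fun O => decide (Acc (g e).1 (CC.cut ((b e).eval z.length) O) z), ?_⟩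
      intro e' z' h' O
      obtain ⟨rfl, rfl⟩ := code_inj b (h.symm.trans h')
      rw [decide_eq_true_eq]
    · exact ⟨fun _ => false, fun e z h' => absurd ⟨(e, z), h'⟩ h⟩
  choose Φ hΦ using key
  refine ⟨b, Φ, fun e z O O' h => ?_, fun E L => ?_⟩
  · rw [Bool.eq_iff_iff, hΦ _ e z rfl, hΦ _ e z rfl]
    have hcut : CC.cut ((b e).eval z.length) O = CC.cut ((b e).eval z.length) O' := by
      funext q
      unfold CC.cut
      split_ifs with hq
      · apply h
        have h1 := lt_length_code b e z
        omega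
      · rfl
    rw [hcut]
  · rintro ⟨M, p, hM⟩
    obtain ⟨e, he⟩ := hg (M, p)
    refine ⟨e, fun x => ?_⟩
    rw [hΦ _ e x rfl]
    have hbe := hb e
    rw [he] at hbe ⊢
    obtain ⟨hM1, s, z, hs, hz, hL⟩ := hM x
    have hcong : ∀ s, M.Reach (CC.cut ((b e).eval x.length) E) x s ↔ M.Reach E x s := by
      refine reach_congr (fun s => s.length ≤ p.eval x.length) hM1 ?_
      intro s q h1 h2
      have h3 := hbe x s h1
      rw [h2, List.length_cons] at h3
      unfold CC.cut
      rw [if_pos (by omega)]
    constructor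
    · intro hx
      refine ⟨s, (hcong s).2 hs, ?_⟩
      rw [hz, hL.1 hx]
    · rintro ⟨t, ht, ht2⟩
      have hst := reach_unique hs ((hcong t).1 ht) ⟨_, hz⟩ ⟨_, ht2⟩
      rw [hst, ht2] at hz
      simp only [List.cons.injEq, true_and] at hz
      exact hL.2 hz.symm

/-- the length of the code depends on the length of the string only -/
theorem length_code (R : ℕ → Polynomial ℕ) (e : ℕ) (z : List Bool) :
    (code R e z).length = e + (R e).eval z.length + z.length + 2 := by
  unfold code
  simp only [List.length_append, List.length_replicate, List.length_cons]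
  omega

end Pool.Agent.L0h33.AV
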