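import Pool.Agent.L0h33.AV.Orc
import Pool.Agent.L0h33.AV.Psp
import Pool.Agent.L0h33.AV.Defs
import Pool.Agent.L0h33.RR.Main

/-!
# The theorem
-/

set_option autoImplicit false

namespace Pool.Agent.L0h33.AV

open Pool.Agent.NPC Pool.Agent.TH678.EL Filter
open Pool.Agent.H620R2.Gauge (Oracle Alg IsFP IsPSPACE IsPH code)
open Pool.Agent.H620R2.Gauge (IsFP.pair IsFP.comp IsFP.of_poly IsFP.precomp IsFP.tt)
open Pool.Agent.L0h33.LD (Nice nice_le nice_upoly)
open Pool.Agent.L0h33.RR (GA ga_iff isFP_ite exists_ofFn ga_mono)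
open Pool.Agent.H639R2.NTP.C5 (allL mem_allL)
open Pool.Agent.H622R2 (poly_pairBits)

attribute [local irreducible] unpair

/-- The languages with bounded nondeterminism are in polynomial space. -/
theorem isPSPACE_of_ga' {A : Oracle} {g : ℕ → ℕ} (hg : Nice g) {L : Set (List Bool)}
    (h : GA A g L) : IsPSPACE A L := by
  obtain ⟨V, hV, hL⟩ := ga_iff.1 h
  obtain ⟨p, hp⟩ := nice_le hg
  have k0 : Poly (fun y : List Bool => unpair y) := poly_unpair
  have k1 : Poly (fun y : List Bool => (unpair y).1) := k0.fst
  have k2 : Poly (fun y : List Bool => (unpair y).2) := k0.snd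
  have h1 : IsFP A (fun y => V (pairBits (unpair y).2 (unpair y).1)) :=
    IsFP.precomp hV (poly_pairBits k2 k1)
  have h2 := isFP_ite (A := A)
    (b := fun y => decide ((unpair y).1.length = g (unpair y).2.length))
    (NPC.Poly.decide_eq (NPC.Poly.length k1) ((nice_upoly hg).comp k2).toPoly) h1
    (IsFP.of_poly (NPC.Poly.const []))
  refine Pool.Agent.H620R2.Gauge.IsPH.isPSPACE ⟨_, p, 1, h2, fun x => ?_⟩
  rw [hL x]
  simp only [Pool.Agent.H620R2.Gauge.Quant, unpair_pairBits, decide_eq_true_eq]
  constructor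
  · rintro ⟨w, hw, hV⟩
    exact ⟨w, by rw [hw]; exact hp _, by rw [if_pos hw]; exact hV⟩
  · rintro ⟨w, -, hV⟩
    split_ifs at hV with hw
    exact ⟨w, hw, hV⟩

/-- the tally language which belongs to the bound `g'` -/
def LTn (g' : ℕ → ℕ) (A : Oracle) : Set (List Bool) :=
  {x | x = x.map (fun _ => true) ∧ ∃ y : List Bool, y.length = g' x.length ∧
    A (loc x.length y) = true}

theorem mem_LTn {g' : ℕ → ℕ} {A : Oracle} {n : ℕ} : ones n ∈ LTn g' A ↔
    ∃ y : List Bool, y.length = g' n ∧ A (loc n y) = true := by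
  unfold LTn
  rw [Set.mem_ofPred_eq, List.length_replicate]
  simp

theorem ga_LTn {g' : ℕ → ℕ} (A : Oracle) : GA A g' (LTn g' A) := by
  have k0 : Poly (fun y : List Bool => unpair y) := poly_unpair
  have k1 : Poly (fun y : List Bool => (unpair y).1) := k0.fst
  have k2 : Poly (fun y : List Bool => (unpair y).2) := k0.snd
  have hm : Poly (fun y : List Bool => (unpair y).1.map (fun _ => true)) :=
    NPC.Poly.map (F := fun _ _ => true) k1 (NPC.Poly.const true)
  have hQ : Poly (fun y : List Bool =>
      [false :: ((unpair y).1.map (fun _ => true) ++ false :: (unpair y).2)]) :=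
    NPC.Poly.cons (NPC.Poly.cons (NPC.Poly.const false) (NPC.Poly.append hm
      (NPC.Poly.cons (NPC.Poly.const false) k2))) (NPC.Poly.const [])
  have h1 := IsFP.tt (A := A) hQ (H := fun p => p.2) (NPC.Poly.snd NPC.Poly.id)
  have h2 := isFP_ite (A := A)
    (b := fun y => decide ((unpair y).1 = (unpair y).1.map (fun _ => true)))
    (NPC.Poly.decide_eq k1 hm) h1 (IsFP.of_poly (NPC.Poly.const []))
  refine ga_iff.2 ⟨_, h2, fun x => ?_⟩
  unfold LTn
  rw [Set.mem_ofPred_eq]
  simp only [unpair_pairBits, decide_eq_true_eq]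
  constructor
  · rintro ⟨h1, y, hy, h2⟩
    refine ⟨y, hy, ?_⟩
    rw [if_pos h1, List.map_const']
    simp only [List.map_cons, List.map_nil, List.cons.injEq, and_true]
    exact h2
  · rintro ⟨w, hw, h⟩
    split_ifs at h with h1
    · rw [List.map_const'] at h
      simp only [List.map_cons, List.map_nil, List.cons.injEq, and_true] at h
      exact ⟨h1, w, hw, h⟩

section

variable {Φ : List Bool → Oracle → Bool} {r : ℕ → Option Req}
  {hs : ℕ → Option {h : ℕ → ℕ // Sup h}} {W : ℕ → Wn} {Y : ℕ → Oracle → List Bool}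
  {B : ℕ → Oracle → Bool} {K : ℕ → Oracle → Bool → List Bool → List Bool} {E : Oracle}

/-- **The separation.** -/
theorem sep (hW : ∀ i, Good r hs i (W i))
    (hYK : ∀ i O q, r i = some q → (Y i O).length = q.g' (W i).n ∧
        ∀ s : List Bool, s.length = q.g (W i).n → loc (W i).n (Y i O) ∉
          qset q.Mc (XX Φ O (W i).n (W i).M (Y i O) false (K i O)) (pairBits (ones (W i).n) s)
            (q.Mc.p.eval (2 * (W i).n + 1 + q.g (W i).n)) [])
    (hB : ∀ i O, B i O = true ↔ ∀ q, r i = some q → ¬ ∃ s : List Bool, s.length = q.g (W i).n ∧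
      q.Mc.out (XX Φ O (W i).n (W i).M (Y i O) false (K i O)) (pairBits (ones (W i).n) s) =
        some [true])
    (hE : ∀ i u, rk u ≤ (W i).M → E u = XX Φ (restr E (W i).n) (W i).n (W i).M
      (Y i (restr E (W i).n)) (B i (restr E (W i).n)) (K i (restr E (W i).n)) u)
    {q : Req} {i : ℕ} (hi : r i = some q) {V : List Bool → List Bool}
    (hV : ∀ x, q.Mc.out E x = some (V x))
    (hL : ∀ x, x ∈ LTn q.g' E ↔ ∃ w : List Bool, w.length = q.g x.length ∧
      V (pairBits x w) = [true]) : False := by
  set n := (W i).n with hn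
  set O := restr E n with hO
  set X0 := XX Φ O n (W i).M (Y i O) false (K i O) with hX0
  have hlen := (hW i).len q hi
  rw [← hn] at hlen
  -- the computations are the same
  have hrun : ∀ s : List Bool, s.length = q.g n →
      q.Mc.out E (pairBits (ones n) s) = q.Mc.out X0 (pairBits (ones n) s) := by
    intro s hs'
    have hx : (pairBits (ones n) s).length = 2 * n + 1 + q.g n := by
      rw [Pool.Agent.H620R2.Gauge.A2.length_pairBits, List.length_replicate, hs']
      omega
    unfold Alg.out
    rw [hx]
    refine run_agree _ _ fun u hu => ?_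
    have h1 := hlen X0 s hs' u hu
    have h2 : rk u ≤ (W i).M := (rk_le u).trans h1
    rw [hE i u h2, ← hn, ← hO, hX0]
    refine (XX_world _ u rfl ?_).symm
    rintro rfl
    exact (hYK i O q hi).2 s hs' hu
  have h1 : ones n ∈ LTn q.g' E ↔ B i O = true := by
    rw [mem_LTn]
    have hloc : ∀ y, E (loc n y) = true ↔ y = Y i O ∧ B i O = true := by
      intro y
      rw [hE i _ (by rw [rk_loc]; exact (hW i).le), ← hn, ← hO, XX_loc]
    constructor
    · rintro ⟨y, -, hy⟩
      exact ((hloc y).1 hy).2
    · intro h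
      exact ⟨Y i O, (hYK i O q hi).1, (hloc _).2 ⟨rfl, h⟩⟩
  have h2 : (∃ w : List Bool, w.length = q.g (ones n).length ∧ V (pairBits (ones n) w) = [true]) ↔
      ∃ s : List Bool, s.length = q.g n ∧ q.Mc.out X0 (pairBits (ones n) s) = some [true] := by
    rw [List.length_replicate]
    refine exists_congr fun s => and_congr_right fun hs' => ?_
    rw [← hrun s hs', hV, Option.some.injEq]
  have h3 := hL (ones n)
  rw [h1, h2] at h3
  have h4 := hB i O
  by_cases hb : B i O = true
  · exact (h4.1 hb) q hi (h3.1 hb)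
  · apply hb
    rw [h4]
    intro q' hq'
    rw [hi, Option.some.injEq] at hq'
    subst hq'
    exact fun h => hb (h3.2 h)

/-- **Few guessed bits and one bit of advice.** -/
theorem adv {R : ℕ → Polynomial ℕ}
    (hloc : ∀ e z O O', (∀ q : List Bool, q.length < (code R e z).length → O q = O' q) →
      Φ (code R e z) O = Φ (code R e z) O')
    (hW : ∀ i, Good r hs i (W i)) (hlt : ∀ i j, i < j → (W i).M < (W j).n)
    (hK : ∀ i O a c, (K i O a c).length = (W i).η)
    (hE : ∀ i u, rk u ≤ (W i).M → E u = XX Φ (restr E (W i).n) (W i).n (W i).M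
      (Y i (restr E (W i).n)) (B i (restr E (W i).n)) (K i (restr E (W i).n)) u)
    (hE' : ∀ a c v, (∀ i, ¬ ((W i).n ≤ c.length ∧ c.length ≤ (W i).M)) →
      E (kq a c v) = Φ c (restr E c.length))
    {L : Set (List Bool)} {e : ℕ} (hL : ∀ z, z ∈ L ↔ Φ (code R e z) E = true)
    {h : {h : ℕ → ℕ // Sup h}} {j : ℕ} (hj : hs j = some h) : GAdv E h.1 L := by
  classical
  obtain ⟨d, hd⟩ := Pool.Agent.H639R2.NTP.exists_pow_bound
    (Polynomial.C (e + 2) + R e + Polynomial.X)
  have hcl : ∀ z : List Bool, (code R e z).length ≤ (z.length + 2) ^ (d + 1) := by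
    intro z
    have h1 := hd z.length
    simp only [Polynomial.eval_add, Polynomial.eval_C, Polynomial.eval_X] at h1
    rw [length_code]
    have h2 : z.length ^ d ≤ (z.length + 2) ^ d := Nat.pow_le_pow_left (by omega) d
    have h3 : d ≤ (z.length + 2) ^ d := by
      calc d ≤ 2 ^ d := Nat.lt_two_pow_self.le
        _ ≤ (z.length + 2) ^ d := Nat.pow_le_pow_left (by omega) d
    calc e + (R e).eval z.length + z.length + 2 ≤ z.length ^ d + d := by omega
      _ ≤ 2 * (z.length + 2) ^ d := by omega
      _ ≤ (z.length + 2) * (z.length + 2) ^ d := Nat.mul_le_mul_right _ (by omega)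
      _ = (z.length + 2) ^ (d + 1) := by rw [pow_succ]; ring
  set i0 := max j (d + 1) with hi0
  set m0 := (W i0).M + 1 with hm0
  set a : ℕ → Bool := fun l => if hh : ∃ i, (W i).n ≤ e + (R e).eval l + l + 2 ∧
    e + (R e).eval l + l + 2 ≤ (W i).M then B hh.choose (restr E (W hh.choose).n) else false with ha
  have huniq : ∀ i j m, (W i).n ≤ m → m ≤ (W i).M → (W j).n ≤ m → m ≤ (W j).M → i = j := by
    intro i j m h1 h2 h3 h4
    rcases lt_trichotomy i j with h | h | h
    · have := hlt i j h
      omega
    · exact h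
    · have := hlt j i h
      omega
  have key : ∀ z : List Bool, m0 ≤ z.length → (z ∈ L ↔ ∃ w : List Bool,
      w.length = h.1 z.length ∧ E (kq (a z.length) (code R e z) w) = true) := by
    intro z hz
    rw [hL z]
    set c := code R e z with hc
    have hclen : c.length = e + (R e).eval z.length + z.length + 2 := length_code R e z
    by_cases hw : ∃ i, (W i).n ≤ c.length ∧ c.length ≤ (W i).M
    · obtain ⟨i, h1, h2⟩ := hw
      have hii : i0 < i := by
        by_contra hcon
        have h3 : (W i).M ≤ (W i0).M := by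
          rcases Nat.lt_or_ge i i0 with h4 | h4
          · exact ((hlt i i0 h4).trans_le (hW i0).le).le
          · have : i = i0 := by omega
            rw [this]
        omega
      have haz : a z.length = B i (restr E (W i).n) := by
        rw [ha]
        beta_reduce
        have hh : ∃ i, (W i).n ≤ e + (R e).eval z.length + z.length + 2 ∧
            e + (R e).eval z.length + z.length + 2 ≤ (W i).M := ⟨i, by omega, by omega⟩
        rw [dif_pos hh]
        have h5 : hh.choose = i := by
          have h6 := hh.choose_spec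
          exact huniq _ _ _ h6.1 h6.2 (by omega) (by omega)
        rw [h5]
      have hη : (W i).η ≤ h.1 z.length := by
        refine (hW i).srt j (by omega) h hj (d + 1) (by omega) z.length (h1.trans (hcl z))
      have hval : ∀ w, E (kq (a z.length) c w) = true ↔
          K i (restr E (W i).n) (a z.length) c <+: w ∧ Φ c E = true := by
        intro w
        rw [hE i _ (by rw [rk_kq]; exact h2), XX_kq h1]
        have e1 : Φ c (upd (restr (XX Φ (restr E (W i).n) (W i).n (W i).M
            (Y i (restr E (W i).n)) (B i (restr E (W i).n)) (K i (restr E (W i).n))) c.length)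
            (loc (W i).n (Y i (restr E (W i).n))) (a z.length)) = Φ c E := by
          refine hloc e z _ _ fun u hu => ?_
          rw [← hc] at hu
          have hru := rk_le u
          unfold upd
          split_ifs with hul
          · rw [hul, hE i _ (by rw [rk_loc]; exact (hW i).le), haz, Bool.eq_iff_iff, XX_loc]
            simp
          · rw [restr_lt (by omega), ← hE i u (by omega)]
        rw [e1]
        constructor
        · rintro ⟨-, h3, h4⟩
          exact ⟨h3, h4⟩
        · rintro ⟨h3, h4⟩
          exact ⟨h2, h3, h4⟩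
      constructor
      · intro hx
        refine ⟨K i (restr E (W i).n) (a z.length) c ++
          List.replicate (h.1 z.length - (W i).η) false, ?_, ?_⟩
        · rw [List.length_append, hK, List.length_replicate]
          omega
        · rw [hval]
          exact ⟨List.prefix_append _ _, hx⟩
      · rintro ⟨w, -, hw⟩
        exact ((hval w).1 hw).2
    · push Not at hw
      have hval : ∀ b w, E (kq b c w) = Φ c E := by
        intro b w
        rw [hE' b c w fun i hi => absurd (hw i hi.1) (by omega)]
        refine hloc e z _ _ fun u hu => ?_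
        rw [← hc] at hu
        have hru := rk_le u
        rw [restr_lt (by omega)]
      constructor
      · intro hx
        exact ⟨List.replicate (h.1 z.length) false, by simp, by rw [hval]; exact hx⟩
      · rintro ⟨w, -, hw'⟩
        rw [hval] at hw'
        exact hw'
  -- the algorithm
  set F : List (List Bool) := (allL m0).filter (fun x => decide (x ∈ L)) with hF
  have k0 : Poly (fun y : List Bool => unpair y) := poly_unpair
  have kt : Poly (fun y : List Bool => y.tail) := NPC.Poly.tail NPC.Poly.id
  have k1 : Poly (fun y : List Bool => (unpair y.tail).1) := (k0.comp kt).fst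
  have k2 : Poly (fun y : List Bool => (unpair y.tail).2) := (k0.comp kt).snd
  have hQ : Poly (fun y : List Bool => [true :: pairBits ((y.head?.getD false) ::
      code R e (unpair y.tail).1) (unpair y.tail).2]) :=
    NPC.Poly.cons (NPC.Poly.cons (NPC.Poly.const true) (poly_pairBits
      (NPC.Poly.cons (NPC.Poly.head?_getD NPC.Poly.id false)
        ((Pool.Agent.H620R2.Gauge.CC.poly_code R e).comp k1)) k2))
      (NPC.Poly.const [])
  have h1 := IsFP.tt (A := E) hQ (H := fun p => p.2) (NPC.Poly.snd NPC.Poly.id)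
  have h2 : Poly (fun y : List Bool => [decide ((unpair y.tail).1 ∈ F)]) :=
    NPC.Poly.cons ((NPC.Poly.decide_mem k1 (NPC.Poly.const F)).congr fun _ => by congr)
      (NPC.Poly.const [])
  have h3 := isFP_ite (A := E) (b := fun y => decide ((unpair y.tail).1.length < m0))
    (NPC.Poly.decide_lt (NPC.Poly.length k1) (NPC.Poly.const m0)) (IsFP.of_poly h2) h1
  refine ⟨_, a, h3, fun x => ?_⟩
  rw [exists_ofFn (P := fun w => (if decide ((unpair (a x.length :: pairBits x w).tail).1.length <
    m0) = true then [decide ((unpair (a x.length :: pairBits x w).tail).1 ∈ F)] else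
      ([true :: pairBits (((a x.length :: pairBits x w).head?.getD false) ::
        code R e (unpair (a x.length :: pairBits x w).tail).1)
          (unpair (a x.length :: pairBits x w).tail).2]).map E) = [true])]
  simp only [List.tail_cons, unpair_pairBits, decide_eq_true_eq]
  by_cases hx : x.length < m0
  · simp only [hx, if_true, List.cons.injEq, decide_eq_true_eq, and_true, hF, List.mem_filter,
      mem_allL]
    exact ⟨fun hxL => ⟨List.replicate (h.1 x.length) true, by simp, hx.le, hxL⟩,
      fun ⟨w, _, h⟩ => h.2⟩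
  · simp only [hx, if_false]
    rw [key x (by omega)]
    refine exists_congr fun w => and_congr_right fun _ => ?_
    simp only [List.head?_cons, Option.getD_some, List.map_cons,
      List.map_nil, List.cons.injEq, and_true]
    rfl

end

/-- **Main theorem.** -/
theorem main : ∃ A : Oracle,
    (∀ L, IsPSPACE A L → ∀ h, Nice h → Sup h → GAdv A h L) ∧
    (∀ g, Nice g → ∀ L, GA A g L → IsPSPACE A L) ∧
    (∀ g, Nice g → ∃ L : Set (List Bool), (∀ x ∈ L, ∃ n, x = List.replicate n true) ∧ GA A g L ∧
      ∀ g', Nice g' → (GA A g' L ↔ ∃ c, ∀ n, g n ≤ g' n + c * Nat.log 2 (n + 2))) ∧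
    (∀ g g', Nice g → Nice g' → ((∀ L, GA A g L → GA A g' L) ↔
      ∃ c, ∀ n, g n ≤ g' n + c * Nat.log 2 (n + 2))) := by
  classical
  obtain ⟨R, Φ, hloc, hPS⟩ := exists_Phi
  have hcn := Pool.Agent.L0h33.RR.countable_nice.to_subtype
  obtain ⟨r, hr⟩ : ∃ r : ℕ → Option Req, Function.Surjective r := exists_surjective_nat _
  obtain ⟨hs0, hhs0⟩ : ∃ hs : ℕ → Option {s : ℕ → ℕ | Nice s}, Function.Surjective hs :=
    exists_surjective_nat _
  set hs : ℕ → Option {h : ℕ → ℕ // Sup h} := fun j => match hs0 j with
    | none => none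
    | some s => if hsup : Sup s.1 then some ⟨s.1, hsup⟩ else none with hhs
  obtain ⟨W, hW, hlt, -⟩ := exists_wins r hs
  choose Y K hK hYK using exists_choice Φ hW
  set B : ℕ → Oracle → Bool := fun i O => decide (∀ q, r i = some q → ¬ ∃ s : List Bool,
    s.length = q.g (W i).n ∧ q.Mc.out (XX Φ O (W i).n (W i).M (Y i O) false (K i O))
      (pairBits (ones (W i).n) s) = some [true]) with hB
  obtain ⟨E, hE, hE'⟩ := exists_E Φ W (fun i => (hW i).le) hlt Y B K
  have hsep : ∀ g g', Nice g → Nice g' → GA E g' (LTn g E) →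
      ∃ c, ∀ n, g n ≤ g' n + c * Nat.log 2 (n + 2) := by
    intro g g' hg hg' hGA
    by_contra hfar
    obtain ⟨V, ⟨Mc, hM⟩, hV⟩ := ga_iff.1 hGA
    obtain ⟨i, hi⟩ := hr (some ⟨Mc, g', g, hg', hg, hfar⟩)
    exact sep (Φ := Φ) (r := r) (hs := hs) (W := W) (Y := Y) (B := B) (K := K) (E := E) hW
      (fun i O q hq => hYK i O q hq) (fun i O => by rw [hB]; beta_reduce; rw [decide_eq_true_eq])
      hE hi hM hV
  refine ⟨E, fun L hL h hn hsup => ?_, fun g hg L hL => isPSPACE_of_ga' hg hL,
    fun g hg => ⟨LTn g E, fun x hx => ⟨x.length, ?_⟩, ga_LTn E, fun g' hg' =>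
      ⟨hsep g g' hg hg', fun ⟨c, hc⟩ => ga_mono hg hc (ga_LTn E)⟩⟩,
    fun g g' hg hg' => ⟨fun hsub => hsep g g' hg hg' (hsub _ (ga_LTn E)),
      fun ⟨c, hc⟩ L hL => ga_mono hg hc hL⟩⟩
  · obtain ⟨e, he⟩ := hPS E L hL
    obtain ⟨j, hj⟩ := hhs0 (some ⟨h, hn⟩)
    have hj' : hs j = some ⟨h, hsup⟩ := by
      rw [hhs]
      beta_reduce
      rw [hj]
      simp only
      rw [dif_pos hsup]
    exact adv (Φ := Φ) (r := r) (hs := hs) (W := W) (Y := Y) (B := B) (K := K) (E := E) hloc hW hlt
      (fun i O a c => hK i O a c) hE hE' he hj'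
  · have h1 := hx.1
    rwa [List.map_const'] at h1

end Pool.Agent.L0h33.AV
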