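import Pool.Agent.L0h33.RR.Prob
import Pool.Agent.H620R2.Gauge.C

/-!
# Oracles given by recursion on the rank of the strings
-/

set_option autoImplicit false

namespace Pool.Agent.L0h33.AV

open Pool.Agent.NPC
open Pool.Agent.H620R2.Gauge (Oracle)
open Pool.Agent.L0h33.RR (pairBits_inj)

/-- the places where a string may be marked -/
def loc (n : ℕ) (y : List Bool) : List Bool := false :: (List.replicate n true ++ false :: y)

/-- the questions about the coded problem -/
def kq (a : Bool) (c v : List Bool) : List Bool := true :: pairBits (a :: c) v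

theorem loc_inj {n n' : ℕ} {y y' : List Bool} (h : loc n y = loc n' y') : n = n' ∧ y = y' := by
  unfold loc at h
  rw [List.cons.injEq] at h
  exact Pool.Agent.H620R2.Gauge.CC.rep_inj _ _ _ _ h.2

theorem kq_inj {a a' : Bool} {c c' v v' : List Bool} (h : kq a c v = kq a' c' v') :
    a = a' ∧ c = c' ∧ v = v' := by
  unfold kq at h
  rw [List.cons.injEq] at h
  obtain ⟨h1, h2⟩ := pairBits_inj h.2
  rw [List.cons.injEq] at h1
  exact ⟨h1.1, h1.2, h2⟩

theorem loc_ne_kq {n : ℕ} {y : List Bool} {a : Bool} {c v : List Bool} : loc n y ≠ kq a c v := by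
  unfold loc kq
  simp

theorem length_loc (n : ℕ) (y : List Bool) : (loc n y).length = n + y.length + 2 := by
  unfold loc
  simp only [List.length_cons, List.length_append, List.length_replicate]
  omega

theorem length_kq (a : Bool) (c v : List Bool) : c.length < (kq a c v).length := by
  unfold kq
  rw [List.length_cons, Pool.Agent.H620R2.Gauge.A2.length_pairBits, List.length_cons]
  omega

/-- the string `u` has the rank `m` -/
def Rk (u : List Bool) (m : ℕ) : Prop :=
  (∃ y, u = loc m y) ∨ ∃ a c v, u = kq a c v ∧ m = c.length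

theorem Rk.unique {u : List Bool} {m m' : ℕ} (h : Rk u m) (h' : Rk u m') : m = m' := by
  rcases h with ⟨y, rfl⟩ | ⟨a, c, v, rfl, rfl⟩
  · rcases h' with ⟨y', h'⟩ | ⟨a, c, v, h', -⟩
    · exact (loc_inj h').1
    · exact absurd h' loc_ne_kq
  · rcases h' with ⟨y', h'⟩ | ⟨a', c', v', h', rfl⟩
    · exact absurd h'.symm loc_ne_kq
    · rw [(kq_inj h').2.1]

open Classical in
/-- the rank -/
noncomputable def rk (u : List Bool) : ℕ := if h : ∃ m, Rk u m then h.choose else 0

theorem rk_eq {u : List Bool} {m : ℕ} (h : Rk u m) : rk u = m := by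
  have h1 : ∃ m, Rk u m := ⟨m, h⟩
  unfold rk
  rw [dif_pos h1]
  exact h1.choose_spec.unique h

@[simp] theorem rk_loc (n : ℕ) (y : List Bool) : rk (loc n y) = n := rk_eq (Or.inl ⟨y, rfl⟩)

@[simp] theorem rk_kq (a : Bool) (c v : List Bool) : rk (kq a c v) = c.length :=
  rk_eq (Or.inr ⟨a, c, v, rfl, rfl⟩)

theorem rk_le (u : List Bool) : rk u ≤ u.length := by
  by_cases h : ∃ m, Rk u m
  · obtain ⟨m, hm⟩ := h
    rw [rk_eq hm]
    rcases hm with ⟨y, rfl⟩ | ⟨a, c, v, rfl, rfl⟩
    · rw [length_loc]
      omega
    · exact (length_kq a c v).le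
  · unfold rk
    rw [dif_neg h]
    exact Nat.zero_le _

/-- the oracle on the strings of smaller rank -/
noncomputable def restr (E : Oracle) (n : ℕ) : Oracle := fun v => if rk v < n then E v else false

theorem restr_lt {E : Oracle} {n : ℕ} {v : List Bool} (h : rk v < n) : restr E n v = E v :=
  if_pos h

theorem restr_restr (E : Oracle) {m n : ℕ} (h : m ≤ n) : restr (restr E n) m = restr E m := by
  funext z
  unfold restr
  by_cases h1 : rk z < m
  · rw [if_pos h1, if_pos h1, if_pos (h1.trans_le h)]
  · rw [if_neg h1, if_neg h1]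

theorem restr_congr {E E' : Oracle} {n : ℕ} (h : ∀ v, rk v < n → E v = E' v) :
    restr E n = restr E' n := by
  funext z
  unfold restr
  split_ifs with h1
  · exact h z h1
  · rfl

/-- The approximations. -/
noncomputable def apx (F : List Bool → Oracle → Bool) : ℕ → Oracle
  | 0 => fun _ => false
  | m + 1 => fun z => if rk z = m then F z (apx F m) else apx F m z

theorem apx_high (F : List Bool → Oracle → Bool) : ∀ (m : ℕ) (z : List Bool), m ≤ rk z →
    apx F m z = false
  | 0, _, _ => rfl
  | m + 1, z, h => by
    simp only [apx]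
    rw [if_neg (by omega)]
    exact apx_high F m z (by omega)

theorem apx_low (F : List Bool → Oracle → Bool) : ∀ (m : ℕ) (z : List Bool), rk z < m →
    apx F m z = F z (apx F (rk z))
  | 0, _, h => absurd h (Nat.not_lt_zero _)
  | m + 1, z, h => by
    simp only [apx]
    by_cases he : rk z = m
    · rw [if_pos he, he]
    · rw [if_neg he]
      exact apx_low F m z (by omega)

/-- There is an oracle which is given by its values on the strings of smaller rank. -/
theorem exists_fix (F : List Bool → Oracle → Bool) :
    ∃ B : Oracle, ∀ z, B z = F z (restr B (rk z)) := by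
  refine ⟨fun z => F z (apx F (rk z)), fun z => ?_⟩
  have e : restr (fun z => F z (apx F (rk z))) (rk z) = apx F (rk z) := by
    funext y
    unfold restr
    by_cases h : rk y < rk z
    · rw [if_pos h, apx_low F _ y h]
    · rw [if_neg h, apx_high F _ y (not_lt.1 h)]
  rw [e]

/-- changing one value -/
def upd (O : Oracle) (u : List Bool) (b : Bool) : Oracle := fun z => if z = u then b else O z

end Pool.Agent.L0h33.AV
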