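import Pool.Agent.L0h33.AV.Win

/-!
# The oracle
-/

set_option autoImplicit false

namespace Pool.Agent.L0h33.AV

open Pool.Agent.NPC Pool.Agent.TH678.EL
open Pool.Agent.H620R2.Gauge (Oracle Alg)

/-- the right hand side of the recursion for the oracle -/
def RhsE (Φ : List Bool → Oracle → Bool) (W : ℕ → Wn) (Y : ℕ → Oracle → List Bool)
    (B : ℕ → Oracle → Bool) (K : ℕ → Oracle → Bool → List Bool → List Bool) (R : ℕ → Oracle)
    (u : List Bool) : Prop :=
  (∃ i, u = loc (W i).n (Y i (R (W i).n)) ∧ B i (R (W i).n) = true) ∨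
  ∃ a c v, u = kq a c v ∧ ((∃ i, (W i).n ≤ c.length ∧ c.length ≤ (W i).M ∧
    K i (R (W i).n) a c <+: v ∧
    Φ c (upd (R c.length) (loc (W i).n (Y i (R (W i).n))) a) = true) ∨
    ((∀ i, ¬ ((W i).n ≤ c.length ∧ c.length ≤ (W i).M)) ∧ Φ c (R c.length) = true))

theorem exists_E (Φ : List Bool → Oracle → Bool) (W : ℕ → Wn) (hle : ∀ i, (W i).n ≤ (W i).M)
    (hlt : ∀ i j, i < j → (W i).M < (W j).n) (Y : ℕ → Oracle → List Bool)
    (B : ℕ → Oracle → Bool) (K : ℕ → Oracle → Bool → List Bool → List Bool) :
    ∃ E : Oracle, (∀ i u, rk u ≤ (W i).M → E u = XX Φ (restr E (W i).n) (W i).n (W i).M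
      (Y i (restr E (W i).n)) (B i (restr E (W i).n)) (K i (restr E (W i).n)) u) ∧
    ∀ a c v, (∀ i, ¬ ((W i).n ≤ c.length ∧ c.length ≤ (W i).M)) →
      E (kq a c v) = Φ c (restr E c.length) := by
  classical
  obtain ⟨E, hE⟩ := exists_fix fun u O => decide (RhsE Φ W Y B K (restr O) u)
  -- the recursion
  have hE' : ∀ u, E u = true ↔ RhsE Φ W Y B K (restr E) u := by
    intro u
    rw [hE, decide_eq_true_eq]
    unfold RhsE
    refine or_congr (exists_congr fun i => ?_) (exists_congr fun a => exists_congr fun c =>
      exists_congr fun v => ?_)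
    · constructor
      · rintro ⟨h1, h2⟩
        have h3 : rk u = (W i).n := by rw [h1, rk_loc]
        rw [h3, restr_restr E le_rfl] at h1 h2
        exact ⟨h1, h2⟩
      · rintro ⟨h1, h2⟩
        have h3 : rk u = (W i).n := by rw [h1, rk_loc]
        rw [h3, restr_restr E le_rfl]
        exact ⟨h1, h2⟩
    · refine and_congr_right fun hu => ?_
      have h3 : rk u = c.length := by rw [hu, rk_kq]
      rw [h3]
      refine or_congr (exists_congr fun i => and_congr_right fun hn => ?_) ?_
      · rw [restr_restr E hn, restr_restr E le_rfl]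
      · rw [restr_restr E le_rfl]
  have huniq : ∀ i j m, (W i).n ≤ m → m ≤ (W i).M → (W j).n ≤ m → m ≤ (W j).M → i = j := by
    intro i j m h1 h2 h3 h4
    rcases lt_trichotomy i j with h | h | h
    · have := hlt i j h
      omega
    · exact h
    · have := hlt j i h
      omega
  refine ⟨E, fun i => ?_, fun a c v h => ?_⟩
  · have key : ∀ (k : ℕ) (u : List Bool), rk u = k → k ≤ (W i).M → E u =
        XX Φ (restr E (W i).n) (W i).n (W i).M (Y i (restr E (W i).n)) (B i (restr E (W i).n))
          (K i (restr E (W i).n)) u := by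
      intro k
      induction k using Nat.strong_induction_on with
      | _ k ih =>
        intro u hu hk
        rcases Nat.lt_or_ge (rk u) (W i).n with h | h
        · rw [XX_low h, restr_lt h]
        · rw [Bool.eq_iff_iff, XX_high h, hE']
          unfold RhsE Rhs
          refine or_congr ⟨?_, ?_⟩ (exists_congr fun a => exists_congr fun c =>
            exists_congr fun v => and_congr_right fun hu' => ?_)
          · rintro ⟨j, h1, h2⟩
            have h3 : rk u = (W j).n := by rw [h1, rk_loc]
            have h4 : i = j := huniq i j (rk u) h (by omega) (by omega) (by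
              have := hle j
              omega)
            subst h4
            exact ⟨h1, h2⟩
          · rintro ⟨h1, h2⟩
            exact ⟨i, h1, h2⟩
          · have hc : c.length = k := by rw [← hu, hu', rk_kq]
            have hr : restr E c.length = restr (XX Φ (restr E (W i).n) (W i).n (W i).M
                (Y i (restr E (W i).n)) (B i (restr E (W i).n)) (K i (restr E (W i).n)))
                c.length :=
              restr_congr fun v hv => ih (rk v) (by omega) v rfl (by omega)
            constructor
            · rintro (⟨j, h1, h2, h3, h4⟩ | ⟨h1, -⟩)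
              · have h5 : i = j := huniq i j c.length (by omega) (by omega) h1 h2
                subst h5
                exact ⟨h2, h3, by rw [← hr]; exact h4⟩
              · exact absurd ⟨by omega, by omega⟩ (h1 i)
            · rintro ⟨h1, h2, h3⟩
              refine Or.inl ⟨i, by omega, h1, h2, ?_⟩
              rw [hr]
              exact h3
    intro u hu
    exact key (rk u) u rfl hu
  · rw [Bool.eq_iff_iff, hE']
    unfold RhsE
    constructor
    · rintro (⟨i, h1, -⟩ | ⟨a', c', v', h1, h2⟩)
      · exact absurd h1.symm loc_ne_kq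
      · obtain ⟨rfl, rfl, rfl⟩ := kq_inj h1
        rcases h2 with ⟨i, h2, h3, -⟩ | ⟨-, h2⟩
        · exact absurd ⟨h2, h3⟩ (h i)
        · exact h2
    · intro h1
      exact Or.inr ⟨a, c, v, rfl, Or.inr ⟨h, h1⟩⟩

/-- the string of `n` ones -/
abbrev ones (n : ℕ) : List Bool := List.replicate n true

open Classical in
/-- The choice of the string and the keys of a stage. -/
theorem exists_choice (Φ : List Bool → Oracle → Bool) {r : ℕ → Option Req}
    {hs : ℕ → Option {h : ℕ → ℕ // Sup h}} {W : ℕ → Wn} (hW : ∀ i, Good r hs i (W i)) (i : ℕ)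
    (O : Oracle) : ∃ (y : List Bool) (κ : Bool → List Bool → List Bool),
      (∀ a c, (κ a c).length = (W i).η) ∧ ∀ q, r i = some q → y.length = q.g' (W i).n ∧
        ∀ s : List Bool, s.length = q.g (W i).n → loc (W i).n y ∉
          qset q.Mc (XX Φ O (W i).n (W i).M y false κ) (pairBits (ones (W i).n) s)
            (q.Mc.p.eval (2 * (W i).n + 1 + q.g (W i).n)) [] := by
  rcases hr : r i with _ | q
  · exact ⟨[], fun _ _ => List.replicate (W i).η false, fun _ _ => by simp, fun q h => by simp at h⟩
  · set xs : Finset (List Bool) := (Finset.univ : Finset (Fin (q.g (W i).n) → Bool)).image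
      (fun s => pairBits (ones (W i).n) (List.ofFn s)) with hxs
    have hc : xs.card ≤ 2 ^ q.g (W i).n := by
      refine Finset.card_image_le.trans ?_
      simp
    obtain ⟨y, κ, h1, h2, h3⟩ := exists_stage Φ O (W i).n (W i).M (W i).η (q.g' (W i).n) q.Mc xs
      (q.Mc.p.eval (2 * (W i).n + 1 + q.g (W i).n)) ((hW i).key q hr)
      (lt_of_le_of_lt (Nat.mul_le_mul_right _ hc) ((hW i).cnt q hr))
    refine ⟨y, κ, h2, fun q' h => ?_⟩
    rw [Option.some.injEq] at h
    subst h
    refine ⟨h1, fun s hs' => h3 _ ?_⟩
    rw [hxs, Finset.mem_image]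
    refine ⟨fun j => s.get (j.cast hs'.symm), Finset.mem_univ _, ?_⟩
    rw [Pool.Agent.L0h33.RR.ofFn_get_cast hs']

end Pool.Agent.L0h33.AV
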