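import Pool.Agent.L0h33.AV.Fix
import Pool.Agent.L0h33.AV.Cnt

/-!
# One stage of the construction
-/

set_option autoImplicit false

namespace Pool.Agent.L0h33.AV

open Pool.Agent.NPC Pool.Agent.TH678.EL
open Pool.Agent.H620R2.Gauge (Oracle Alg)

/-- the right hand side of the recursion for one stage -/
def Rhs (Φ : List Bool → Oracle → Bool) (n M : ℕ) (y : List Bool) (β : Bool)
    (κ : Bool → List Bool → List Bool) (R : ℕ → Oracle) (u : List Bool) : Prop :=
  (u = loc n y ∧ β = true) ∨ ∃ a c v, u = kq a c v ∧ c.length ≤ M ∧ κ a c <+: v ∧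
    Φ c (upd (R c.length) (loc n y) a) = true

open Classical in
theorem exists_X (Φ : List Bool → Oracle → Bool) (O : Oracle) (n M : ℕ) (y : List Bool) (β : Bool)
    (κ : Bool → List Bool → List Bool) : ∃ X : Oracle, ∀ u, X u =
      if rk u < n then O u else decide (Rhs Φ n M y β κ (restr X) u) := by
  obtain ⟨X, hX⟩ := exists_fix fun u R =>
    if rk u < n then O u else decide (Rhs Φ n M y β κ (fun _ => R) u)
  refine ⟨X, fun u => ?_⟩
  rw [hX]
  split_ifs with h
  · rfl
  · rw [decide_eq_decide]
    unfold Rhs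
    refine or_congr Iff.rfl (exists_congr fun a => exists_congr fun c => exists_congr fun v => ?_)
    refine and_congr_right fun hu => ?_
    rw [hu, rk_kq]

/-- The oracle which agrees with `O` below the rank `n`. -/
noncomputable def XX (Φ : List Bool → Oracle → Bool) (O : Oracle) (n M : ℕ) (y : List Bool)
    (β : Bool) (κ : Bool → List Bool → List Bool) : Oracle :=
  (exists_X Φ O n M y β κ).choose

section

variable {Φ : List Bool → Oracle → Bool} {O : Oracle} {n M : ℕ} {y : List Bool} {β : Bool}
  {κ : Bool → List Bool → List Bool}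

open Classical in
theorem XX_spec (u : List Bool) : XX Φ O n M y β κ u =
    if rk u < n then O u else decide (Rhs Φ n M y β κ (restr (XX Φ O n M y β κ)) u) :=
  (exists_X Φ O n M y β κ).choose_spec u

theorem XX_low {u : List Bool} (h : rk u < n) : XX Φ O n M y β κ u = O u := by
  rw [XX_spec, if_pos h]

open Classical in
theorem XX_high {u : List Bool} (h : n ≤ rk u) : XX Φ O n M y β κ u = true ↔
    Rhs Φ n M y β κ (restr (XX Φ O n M y β κ)) u := by
  rw [XX_spec, if_neg (by omega), decide_eq_true_eq]

theorem XX_kq {a : Bool} {c v : List Bool} (h : n ≤ c.length) :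
    XX Φ O n M y β κ (kq a c v) = true ↔ c.length ≤ M ∧ κ a c <+: v ∧
      Φ c (upd (restr (XX Φ O n M y β κ) c.length) (loc n y) a) = true := by
  rw [XX_high (by rw [rk_kq]; exact h)]
  unfold Rhs
  constructor
  · rintro (⟨h1, -⟩ | ⟨a', c', v', h1, h2⟩)
    · exact absurd h1.symm loc_ne_kq
    · obtain ⟨rfl, rfl, rfl⟩ := kq_inj h1
      exact h2
  · intro h1
    exact Or.inr ⟨a, c, v, rfl, h1⟩

theorem XX_loc {y' : List Bool} : XX Φ O n M y β κ (loc n y') = true ↔ y' = y ∧ β = true := by
  rw [XX_high (by rw [rk_loc])]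
  unfold Rhs
  constructor
  · rintro (⟨h1, h2⟩ | ⟨a', c', v', h1, -⟩)
    · exact ⟨(loc_inj h1).2, h2⟩
    · exact absurd h1 loc_ne_kq
  · rintro ⟨rfl, h2⟩
    exact Or.inl ⟨rfl, h2⟩

/-- The two worlds differ at one place only. -/
theorem XX_world : ∀ (k : ℕ) (u : List Bool), rk u = k → u ≠ loc n y →
    XX Φ O n M y β κ u = XX Φ O n M y false κ u := by
  intro k
  induction k using Nat.strong_induction_on with
  | _ k ih =>
    intro u hu hne
    rcases Nat.lt_or_ge (rk u) n with h | h
    · rw [XX_low h, XX_low h]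
    · rw [Bool.eq_iff_iff, XX_high h, XX_high h]
      unfold Rhs
      refine or_congr ⟨fun h1 => absurd h1.1 hne, fun h1 => absurd h1.1 hne⟩
        (exists_congr fun a => exists_congr fun c => exists_congr fun v => ?_)
      refine and_congr_right fun hu' => ?_
      have hc : c.length = k := by rw [← hu, hu', rk_kq]
      have e : upd (restr (XX Φ O n M y β κ) c.length) (loc n y) a =
          upd (restr (XX Φ O n M y false κ) c.length) (loc n y) a := by
        funext z
        unfold upd
        split_ifs with hz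
        · rfl
        · unfold restr
          split_ifs with hz'
          · exact ih (rk z) (by omega) z rfl hz
          · rfl
      rw [e]

end

theorem pre_iff {η : ℕ} {k : Fin η → Bool} {v : List Bool} (h : η ≤ v.length) :
    List.ofFn k <+: v ↔ k = fun i : Fin η => v[(i : ℕ)]'(by have := i.2; omega) := by
  constructor
  · rintro ⟨t, ht⟩
    funext i
    have h1 : v[(i : ℕ)]'(by have := i.2; omega) = (List.ofFn k ++ t)[(i : ℕ)]'(by simp; omega) := by
      congr 1
      exact ht.symm
    rw [h1, List.getElem_append_left (by simp), List.getElem_ofFn]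
  · intro hk
    subst hk
    rw [List.prefix_iff_eq_take]
    apply List.ext_getElem
    · simp [h]
    · intro i h1 h2
      rw [List.getElem_ofFn, List.getElem_take]

open Classical in
/-- **One stage.** The string `y` and the keys can be chosen such that none of the computations
asks for `y`, if `y` is not marked. -/
theorem exists_stage (Φ : List Bool → Oracle → Bool) (O : Oracle) (n M η g' : ℕ) (Mc : Alg)
    (xs : Finset (List Bool)) (m : ℕ) (hm : m ≤ 2 ^ η) (hxs : xs.card * (4 * m) < 2 ^ g') :
    ∃ (y : List Bool) (κ : Bool → List Bool → List Bool), y.length = g' ∧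
      (∀ a c, (κ a c).length = η) ∧
      ∀ x ∈ xs, loc n y ∉ qset Mc (XX Φ O n M y false κ) x m [] := by
  set S : Finset (List Bool) := (List.finite_length_le Bool M).toFinset with hS
  have hSm : ∀ c : List Bool, c ∈ S ↔ c.length ≤ M := by
    intro c
    rw [hS, Set.Finite.mem_toFinset, Set.mem_ofPred_eq]
  set ky : (Fin g' → Bool) × (Bool × S → Fin η → Bool) → Bool → List Bool → List Bool :=
    fun θ a c => if h : c ∈ S then List.ofFn (θ.2 (a, ⟨c, h⟩)) else List.replicate η false with hky
  have hkl : ∀ θ a c, (ky θ a c).length = η := by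
    intro θ a c
    rw [hky]
    beta_reduce
    split_ifs <;> simp
  set X : (Fin g' → Bool) × (Bool × S → Fin η → Bool) → Oracle := fun θ =>
    XX Φ O n M (List.ofFn θ.1) false (ky θ) with hX
  set Fr : List Bool → (Bool × S) × (Fin η → Bool) → Prop := fun u p =>
    ∃ (a : Bool) (c v : List Bool) (hc : c ∈ S) (hv : η ≤ v.length), u = kq a c v ∧
      n ≤ c.length ∧ p = ((a, ⟨c, hc⟩), fun i : Fin η => v[(i : ℕ)]'(by have := i.2; omega)) with hFr
  have hFu : ∀ u p p', Fr u p → Fr u p' → p = p' := by
    rintro u p p' ⟨a, c, v, hc, hv, rfl, h1, rfl⟩ ⟨a', c', v', hc', hv', h2, h3, rfl⟩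
    obtain ⟨rfl, rfl, rfl⟩ := kq_inj h2
    rfl
  set f : List Bool → Option ((Bool × S) × (Fin η → Bool)) := fun u =>
    if h : ∃ p, Fr u p then some h.choose else none with hf
  have hfs : ∀ u p, f u = some p → Fr u p := by
    intro u p h
    rw [hf] at h
    beta_reduce at h
    split_ifs at h with h1
    rw [Option.some.injEq] at h
    rw [← h]
    exact h1.choose_spec
  have hfn : ∀ u, f u = none → ∀ p, ¬ Fr u p := by
    intro u h p hp
    rw [hf] at h
    beta_reduce at h
    rw [dif_pos ⟨p, hp⟩] at h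
    exact absurd h (by simp)
  suffices hgood : ∃ θ, ∀ x ∈ xs, loc n (List.ofFn θ.1) ∉ qset Mc (X θ) x m [] by
    obtain ⟨θ, hθ⟩ := hgood
    exact ⟨List.ofFn θ.1, ky θ, by simp, hkl θ, hθ⟩
  refine exists_good (Y := Fin g' → Bool) (I := Bool × S) (V := Fin η → Bool)
    (M := Mc) (X := X) (O' := fun u => if rk u < n then O u else false) (f := f)
    (lc := fun y => loc n (List.ofFn y)) ?_ ?_ ?_ ?_ m xs ?_ ?_
  · intro y y' h
    exact List.ofFn_injective (loc_inj h).2
  · intro u θ hu
    beta_reduce
    rcases Nat.lt_or_ge (rk u) n with h | h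
    · rw [if_pos h]
      exact XX_low h
    · rw [if_neg (by omega), ← Bool.not_eq_true]
      intro h1
      rw [hX] at h1
      beta_reduce at h1
      rw [XX_high h] at h1
      rcases h1 with ⟨-, h1⟩ | ⟨a, c, v, h1, h2, h3, -⟩
      · exact absurd h1 (by simp)
      · have h4 : η ≤ v.length := by
          rw [← hkl θ a c]
          exact h3.length_le
        refine hfn u hu _ ⟨a, c, v, (hSm c).2 h2, h4, h1, ?_, rfl⟩
        rw [h1, rk_kq] at h
        exact h
  · intro u θ p hu h1
    obtain ⟨a, c, v, hc, hv, rfl, h2, rfl⟩ := hfs u p hu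
    rw [hX] at h1
    beta_reduce at h1
    rw [XX_kq h2] at h1
    obtain ⟨-, h3, -⟩ := h1
    rw [hky] at h3
    beta_reduce at h3
    rw [dif_pos hc, pre_iff hv] at h3
    exact h3
  · intro u u' θ p hu hu'
    obtain ⟨a, c, v, hc, hv, rfl, h2, rfl⟩ := hfs u p hu
    obtain ⟨a', c', v', hc', hv', rfl, h2', h3⟩ := hfs u' _ hu'
    rw [Prod.mk.injEq, Prod.mk.injEq, Subtype.mk.injEq] at h3
    obtain ⟨⟨rfl, rfl⟩, h3⟩ := h3
    rw [Bool.eq_iff_iff, hX]
    beta_reduce
    rw [XX_kq h2, XX_kq h2]
    refine and_congr_right fun _ => and_congr_left fun _ => ?_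
    rw [hky]
    beta_reduce
    rw [dif_pos hc, pre_iff hv, pre_iff hv', h3]
  · simpa using hm
  · simpa using hxs

end Pool.Agent.L0h33.AV
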