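import Pool.Agent.L0h33.AV.Stg
import Pool.Agent.L0h33.RI.Top
import Pool.Agent.L0h33.UD.Strat

/-!
# The choice of the lengths
-/

set_option autoImplicit false

namespace Pool.Agent.L0h33.AV

open Pool.Agent.NPC Pool.Agent.TH678.EL Filter
open Pool.Agent.H620R2.Gauge (Oracle Alg)
open Pool.Agent.L0h33.LD (Nice nice_le)
open Pool.Agent.L0h33.RR (Far far_of countable_nice)
open Pool.Agent.L0h33.RI (poly_bound)

/-- more than logarithmic -/
def Sup (h : ℕ → ℕ) : Prop := ∀ c, ∀ᶠ n in atTop, c * Nat.log 2 (n + 2) ≤ h n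

/-- a requirement: a machine and two bounds of different orders -/
structure Req : Type where
  /-- the machine -/
  Mc : Alg
  /-- the number of its guessed bits -/
  g : ℕ → ℕ
  /-- the length of the marked string -/
  g' : ℕ → ℕ
  /-- computable in polynomial time -/
  hg : Nice g
  /-- computable in polynomial time -/
  hg' : Nice g'
  /-- not of the same order -/
  far : ¬ ∃ c, ∀ n, g' n ≤ g n + c * Nat.log 2 (n + 2)

instance : Countable Req := by
  have h1 := countable_nice.to_subtype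
  have h : Function.Injective (fun q : Req => (q.Mc, (⟨q.g, q.hg⟩ : {s : ℕ → ℕ | Nice s}),
      (⟨q.g', q.hg'⟩ : {s : ℕ → ℕ | Nice s}))) := by
    rintro ⟨a, b, c, d, e, f⟩ ⟨a', b', c', d', e', f'⟩ h
    simp only [Prod.mk.injEq, Subtype.mk.injEq] at h
    obtain ⟨rfl, rfl, rfl⟩ := h
    rfl
  exact h.countable

/-- the numbers which belong to a stage -/
structure Wn : Type where
  /-- the first length -/
  n : ℕ
  /-- the last length -/
  M : ℕ
  /-- the length of the keys -/
  η : ℕ

/-- the conditions for the numbers of the stage `i` -/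
structure Good (r : ℕ → Option Req) (hs : ℕ → Option {h : ℕ → ℕ // Sup h}) (i : ℕ) (w : Wn) :
    Prop where
  /-- the lengths are in order -/
  le : w.n ≤ w.M
  /-- the questions are not too long -/
  len : ∀ q, r i = some q → ∀ (A : Oracle) (s : List Bool), s.length = q.g w.n →
    ∀ u ∈ qset q.Mc A (pairBits (List.replicate w.n true) s)
      (q.Mc.p.eval (2 * w.n + 1 + q.g w.n)) [], u.length ≤ w.M
  /-- there are more strings than questions -/
  cnt : ∀ q, r i = some q → 2 ^ q.g w.n * (4 * q.Mc.p.eval (2 * w.n + 1 + q.g w.n)) < 2 ^ q.g' w.n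
  /-- the keys are long -/
  key : ∀ q, r i = some q → q.Mc.p.eval (2 * w.n + 1 + q.g w.n) ≤ 2 ^ w.η
  /-- the keys are short -/
  srt : ∀ j ≤ i, ∀ h, hs j = some h → ∀ d ≤ i, ∀ l, w.n ≤ (l + 2) ^ d → w.η ≤ h.1 l

theorem log_le_of_pow {n l d : ℕ} (h : n ≤ (l + 2) ^ d) :
    Nat.log 2 (n + 2) ≤ 2 * (d + 2) * Nat.log 2 (l + 2) := by
  have hlog : 1 ≤ Nat.log 2 (l + 2) := Nat.log_pos (by norm_num) (by omega)
  have h1 : n + 2 ≤ (l + 2) ^ (d + 2) := by
    have h2 : (l + 2) ^ (d + 2) = (l + 2) ^ d * (l + 2) ^ 2 := pow_add _ _ _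
    have h3 : 1 ≤ (l + 2) ^ d := Nat.one_le_pow _ _ (by omega)
    have h4 : 4 ≤ (l + 2) ^ 2 := Nat.pow_le_pow_left (show 2 ≤ l + 2 by omega) 2
    nlinarith
  have h5 : l + 2 < 2 ^ (Nat.log 2 (l + 2) + 1) := Nat.lt_pow_succ_log_self (by norm_num) _
  have h6 : n + 2 < 2 ^ ((Nat.log 2 (l + 2) + 1) * (d + 2)) := by
    rw [pow_mul]
    exact lt_of_le_of_lt h1 (Nat.pow_lt_pow_left h5 (by omega))
  have h7 : Nat.log 2 (n + 2) < (Nat.log 2 (l + 2) + 1) * (d + 2) :=
    Nat.log_lt_of_lt_pow (by omega) h6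
  nlinarith

theorem exists_win (r : ℕ → Option Req) (hs : ℕ → Option {h : ℕ → ℕ // Sup h}) (i L : ℕ) :
    ∃ w : Wn, L ≤ w.n ∧ Good r hs i w := by
  rcases hr : r i with _ | q
  · exact ⟨⟨L, L, 0⟩, le_rfl, ⟨le_rfl, fun q h => by rw [hr] at h; simp at h,
      fun q h => by rw [hr] at h; simp at h, fun q h => by rw [hr] at h; simp at h,
      fun _ _ _ _ _ _ _ _ => Nat.zero_le _⟩⟩
  · obtain ⟨c, hc⟩ := poly_bound q.Mc q.hg
    have hev : ∀ᶠ l in atTop, ∀ j ∈ Finset.range (i + 1), ∀ h, hs j = some h →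
        c * (2 * (i + 2)) * Nat.log 2 (l + 2) ≤ h.1 l := by
      rw [Filter.eventually_all_finset]
      intro j _
      rcases hj : hs j with _ | h
      · exact Filter.Eventually.of_forall fun l h h' => by simp at h'
      · refine (h.2 (c * (2 * (i + 2)))).mono fun l hl h' hh => ?_
        rw [Option.some.injEq] at hh
        rw [← hh]
        exact hl
    obtain ⟨N, hN⟩ := Filter.eventually_atTop.1 hev
    obtain ⟨b, hb⟩ := Pool.Agent.H620R2.Gauge.A2.act_bound q.Mc
    obtain ⟨n, hn, hn1, hn2⟩ := far_of q.hg q.far q.Mc (L + (N + 2) ^ i + 1)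
    refine ⟨⟨n, max n (b.eval (2 * n + 1 + q.g n)), c * Nat.log 2 (n + 2)⟩, by
      show L ≤ n
      omega, ⟨le_max_left _ _, fun q' h A s hsl u hu => ?_, fun q' h => ?_, fun q' h => ?_,
      fun j hj h hh d hd l hl => ?_⟩⟩
    · rw [hr, Option.some.injEq] at h
      subst h
      change s.length = q.g n at hsl
      change u ∈ qset q.Mc A (pairBits (List.replicate n true) s)
        (q.Mc.p.eval (2 * n + 1 + q.g n)) [] at hu
      have hx : (pairBits (List.replicate n true) s).length = 2 * n + 1 + q.g n := by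
        rw [Pool.Agent.H620R2.Gauge.A2.length_pairBits, List.length_replicate, hsl]
        omega
      rw [← hx] at hu
      have h1 := Pool.Agent.L0h33.UD.qset_len q.Mc hb A _ _ [] (by simp) u hu
      rw [hx] at h1
      exact h1.trans (le_max_right _ _)
    · rw [hr, Option.some.injEq] at h
      subst h
      show 2 ^ q.g n * (4 * q.Mc.p.eval (2 * n + 1 + q.g n)) < 2 ^ q.g' n
      have h3 : 8 * (2 ^ q.g n * q.Mc.p.eval (2 * n + 1 + q.g n)) =
        2 * (2 ^ q.g n * (4 * q.Mc.p.eval (2 * n + 1 + q.g n))) := by ring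
      have h4 := Nat.two_pow_pos (q.g' n)
      omega
    · rw [hr, Option.some.injEq] at h
      subst h
      show q.Mc.p.eval (2 * n + 1 + q.g n) ≤ 2 ^ (c * Nat.log 2 (n + 2))
      refine le_trans ?_ (hc n)
      exact Nat.le_mul_of_pos_right _ (Nat.pow_pos (by omega))
    · change n ≤ (l + 2) ^ d at hl
      show c * Nat.log 2 (n + 2) ≤ h.1 l
      have hlN : N ≤ l := by
        by_contra hcon
        have h3 : (l + 2) ^ d ≤ (N + 2) ^ i :=
          (Nat.pow_le_pow_left (by omega) d).trans (Nat.pow_le_pow_right (by omega) hd)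
        omega
      have h4 := hN l hlN j (Finset.mem_range.2 (by omega)) h hh
      have h5 := log_le_of_pow hl
      refine le_trans ?_ h4
      have h6 : 2 * (d + 2) * Nat.log 2 (l + 2) ≤ 2 * (i + 2) * Nat.log 2 (l + 2) :=
        Nat.mul_le_mul_right _ (by omega)
      calc c * Nat.log 2 (n + 2) ≤ c * (2 * (i + 2) * Nat.log 2 (l + 2)) :=
            Nat.mul_le_mul_left _ (h5.trans h6)
        _ = c * (2 * (i + 2)) * Nat.log 2 (l + 2) := by ring

theorem exists_wins (r : ℕ → Option Req) (hs : ℕ → Option {h : ℕ → ℕ // Sup h}) :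
    ∃ W : ℕ → Wn, (∀ i, Good r hs i (W i)) ∧ (∀ i j, i < j → (W i).M < (W j).n) ∧
      ∀ i, i ≤ (W i).n := by
  choose F hF1 hF2 using exists_win r hs
  set W : ℕ → Wn := fun i => Nat.rec (F 0 0) (fun i w => F (i + 1) (w.M + 1)) i with hW
  have hWs : ∀ i, W (i + 1) = F (i + 1) ((W i).M + 1) := fun i => rfl
  have hgood : ∀ i, Good r hs i (W i) := by
    intro i
    cases i with
    | zero => exact hF2 0 0
    | succ i => rw [hWs]; exact hF2 _ _
  have hstep : ∀ i, (W i).M < (W (i + 1)).n := by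
    intro i
    rw [hWs]
    exact hF1 _ _
  have hlt : ∀ i j, i < j → (W i).M < (W j).n := by
    intro i j h
    induction j with
    | zero => omega
    | succ j ih =>
      rcases Nat.lt_or_ge i j with h1 | h1
      · exact ((ih h1).trans_le (hgood j).le).trans (hstep j)
      · have : i = j := by omega
        subst this
        exact hstep i
  refine ⟨W, hgood, hlt, fun i => ?_⟩
  induction i with
  | zero => exact Nat.zero_le _
  | succ i ih =>
    have h1 := hstep i
    have h2 := (hgood i).le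
    omega

end Pool.Agent.L0h33.AV
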